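import Mathlib

set_option autoImplicit false

open scoped InnerProductSpace NNReal

namespace Pool.Agent.Results.MP_d5c8f2_an.RankOneObstruction

variable {H : Type*} [NormedAddCommGroup H] [InnerProductSpace ℂ H]

/-- `S` is a `C₀`-semigroup on `H`: `S 0 = I`, `S (t + s) = S t ∘ S s` and `t ↦ S t x` is
continuous on `[0, ∞)` for every `x`. -/
structure IsC0Semigroup (S : ℝ≥0 → H →L[ℂ] H) : Prop where
  map_zero : S 0 = ContinuousLinearMap.id ℂ H
  map_add : ∀ t s : ℝ≥0, S (t + s) = (S t).comp (S s)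
  continuous_apply : ∀ x : H, Continuous fun t : ℝ≥0 => S t x

/-- `T` is embeddable: `T = S 1` for some `C₀`-semigroup `S` on `H`. -/
def Embeddable (T : H →L[ℂ] H) : Prop :=
  ∃ S : ℝ≥0 → H →L[ℂ] H, IsC0Semigroup S ∧ S 1 = T

/-- `T` is a partial isometry: it is isometric on the orthogonal complement of its kernel. -/
def IsPartialIsometry (T : H →L[ℂ] H) : Prop :=
  ∀ x ∈ (LinearMap.ker (T : H →ₗ[ℂ] H))ᗮ, ‖T x‖ = ‖x‖

/-- The dimension of the subspace `M` is zero or infinite. -/
def ZeroOrInfiniteDim (M : Submodule ℂ H) : Prop :=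
  M = ⊥ ∨ ¬ FiniteDimensional ℂ M

/-- Condition (N): each of `dim ker T` and `codim rg T` is zero or infinite. The codimension of the
range is the dimension of the orthogonal complement of the range. -/
def ConditionN (T : H →L[ℂ] H) : Prop :=
  ZeroOrInfiniteDim (LinearMap.ker (T : H →ₗ[ℂ] H)) ∧
    ZeroOrInfiniteDim (LinearMap.range (T : H →ₗ[ℂ] H))ᗮ

/-- The orthogonal complement of a line in an infinite-dimensional space is infinite-dimensional. -/
lemma not_finiteDimensional_orthogonal_singleton (hH : ¬ FiniteDimensional ℂ H) (e : H) :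
    ¬ FiniteDimensional ℂ (ℂ ∙ e)ᗮ := by
  intro hfin
  apply hH
  have h1 : (ℂ ∙ e) ⊔ (ℂ ∙ e)ᗮ = ⊤ := Submodule.sup_orthogonal_of_hasOrthogonalProjection
  have h2 : FiniteDimensional ℂ ((ℂ ∙ e) ⊔ (ℂ ∙ e)ᗮ : Submodule ℂ H) :=
    Submodule.finiteDimensional_sup _ _
  rw [h1] at h2
  exact (Submodule.topEquiv (R := ℂ) (M := H)).finiteDimensional

/-- An infinite-dimensional space contains two orthogonal unit vectors. -/
lemma exists_orthonormal_pair (hH : ¬ FiniteDimensional ℂ H) :
    ∃ e f : H, ‖e‖ = 1 ∧ ‖f‖ = 1 ∧ ⟪e, f⟫_ℂ = 0 := by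
  have hnt : Nontrivial H := by
    by_contra h
    rw [not_nontrivial_iff_subsingleton] at h
    exact hH inferInstance
  obtain ⟨e, he⟩ := exists_norm_eq H (show (0 : ℝ) ≤ 1 by norm_num)
  have h1 : (ℂ ∙ e)ᗮ ≠ ⊥ := by
    intro h
    apply not_finiteDimensional_orthogonal_singleton hH e
    rw [h]
    infer_instance
  obtain ⟨g, hg, hg0⟩ := Submodule.exists_mem_ne_zero_of_ne_bot h1
  refine ⟨e, ((‖g‖⁻¹ : ℝ) : ℂ) • g, he, ?_, ?_⟩
  · rw [norm_smul]
    simp [hg0]
  · rw [inner_smul_right, Submodule.mem_orthogonal_singleton_iff_inner_right.mp hg, mul_zero]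

/-- The rank-one operator `x ↦ ⟪e, x⟫ f`. -/
lemma exists_rankOne (e f : H) : ∃ T : H →L[ℂ] H, ∀ x, T x = ⟪e, x⟫_ℂ • f :=
  ⟨(innerSL ℂ e).smulRight f, fun x => by simp⟩

/-- The key obstruction: no `C₀`-semigroup passes at time `1` through `x ↦ ⟪e, x⟫ f` with `e`, `f`
orthogonal unit vectors. -/
lemma not_embeddable {e f : H} (he : ‖e‖ = 1) (hf : ‖f‖ = 1) (hef : ⟪e, f⟫_ℂ = 0)
    {T : H →L[ℂ] H} (hT : ∀ x, T x = ⟪e, x⟫_ℂ • f) : ¬ Embeddable T := by
  rintro ⟨S, hS, hS1⟩
  have hee : ⟪e, e⟫_ℂ = 1 := by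
    rw [inner_self_eq_norm_sq_to_K, he]; norm_num
  have hff : ⟪f, f⟫_ℂ = 1 := by
    rw [inner_self_eq_norm_sq_to_K, hf]; norm_num
  have hTe : T e = f := by rw [hT, hee, one_smul]
  -- `S t f` is a multiple of `f`
  have hcomm : ∀ t x, S t (T x) = T (S t x) := by
    intro t x
    have h1 : S t (S 1 x) = S 1 (S t x) := by
      rw [← ContinuousLinearMap.comp_apply, ← hS.map_add, add_comm, hS.map_add,
        ContinuousLinearMap.comp_apply]
    rw [hS1] at h1
    exact h1
  set lam : ℝ≥0 → ℂ := fun t => ⟪f, S t f⟫_ℂ with hlam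
  have hSf : ∀ t, S t f = lam t • f := by
    intro t
    have h1 : S t f = ⟪e, S t e⟫_ℂ • f := by
      rw [← hT, ← hcomm, hTe]
    rw [hlam]
    simp only
    rw [h1, inner_smul_right, hff, mul_one]
  have hcont : Continuous lam := continuous_const.inner (hS.continuous_apply f)
  have hlam0 : lam 0 = 1 := by
    simp only [hlam, hS.map_zero]
    exact hff
  have hlam1 : lam 1 = 0 := by
    simp only [hlam, hS1, hT, hef, zero_smul, inner_zero_right]
  have hmul : ∀ t s, lam (t + s) = lam t * lam s := by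
    intro t s
    have h1 : S (t + s) f = (lam s * lam t) • f := by
      rw [hS.map_add, ContinuousLinearMap.comp_apply, hSf s, map_smul, hSf t, smul_smul]
    have h2 : lam (t + s) = ⟪f, S (t + s) f⟫_ℂ := rfl
    rw [h2, h1, inner_smul_right, hff, mul_one, mul_comm]
  -- all dyadic values vanish
  have hdy : ∀ n : ℕ, lam ((1 / 2 : ℝ≥0) ^ n) = 0 := by
    intro n
    induction n with
    | zero => simpa using hlam1
    | succ n ih =>
      have h1 : ((1 / 2 : ℝ≥0) ^ n) = (1 / 2 : ℝ≥0) ^ (n + 1) + (1 / 2 : ℝ≥0) ^ (n + 1) := by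
        rw [pow_succ]
        rw [← mul_add, add_halves, mul_one]
      rw [h1, hmul] at ih
      exact mul_self_eq_zero.mp ih
  have hlim : Filter.Tendsto (fun n : ℕ => lam ((1 / 2 : ℝ≥0) ^ n)) Filter.atTop (nhds (lam 0)) := by
    apply (hcont.tendsto 0).comp
    apply tendsto_pow_atTop_nhds_zero_of_lt_one (𝕜 := ℝ≥0)
    · exact zero_le
    · exact NNReal.half_lt_self one_ne_zero
  simp only [hdy, hlam0] at hlim
  exact zero_ne_one (tendsto_nhds_unique tendsto_const_nhds hlim)

/-- **Disproof of Q1 on every infinite-dimensional Hilbert space.** On every infinite-dimensional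
complex Hilbert space there is a partial isometry satisfying condition (N) which is not
embeddable into a `C₀`-semigroup. -/
theorem result (H : Type*) [NormedAddCommGroup H] [InnerProductSpace ℂ H] [CompleteSpace H]
    (hH : ¬ FiniteDimensional ℂ H) :
    ∃ T : H →L[ℂ] H, IsPartialIsometry T ∧ ConditionN T ∧ ¬ Embeddable T := by
  obtain ⟨e, f, he, hf, hef⟩ := exists_orthonormal_pair hH
  obtain ⟨T, hT⟩ := exists_rankOne e f
  have hf0 : f ≠ 0 := by
    intro h; rw [h, norm_zero] at hf; exact zero_ne_one hf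
  have hker : LinearMap.ker (T : H →ₗ[ℂ] H) = (ℂ ∙ e)ᗮ := by
    ext x
    rw [LinearMap.mem_ker, Submodule.mem_orthogonal_singleton_iff_inner_right]
    simp [hT, hf0]
  have hee : ⟪e, e⟫_ℂ = 1 := by
    rw [inner_self_eq_norm_sq_to_K, he]; norm_num
  have hran : LinearMap.range (T : H →ₗ[ℂ] H) = (ℂ ∙ f) := by
    ext x
    rw [LinearMap.mem_range, Submodule.mem_span_singleton]
    constructor
    · rintro ⟨y, hy⟩
      exact ⟨⟪e, y⟫_ℂ, by rw [← hy]; exact (hT y).symm⟩
    · rintro ⟨a, ha⟩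
      refine ⟨a • e, ?_⟩
      have : T (a • e) = x := by
        rw [hT, inner_smul_right, hee, mul_one, ha]
      exact this
  refine ⟨T, ?_, ⟨Or.inr ?_, Or.inr ?_⟩, not_embeddable he hf hef hT⟩
  · intro x hx
    rw [hker, Submodule.orthogonal_orthogonal, Submodule.mem_span_singleton] at hx
    obtain ⟨a, rfl⟩ := hx
    rw [hT, inner_smul_right, hee, mul_one, norm_smul, norm_smul, he, hf]
  · rw [hker]
    exact not_finiteDimensional_orthogonal_singleton hH e
  · rw [hran]
    exact not_finiteDimensional_orthogonal_singleton hH f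

end Pool.Agent.Results.MP_d5c8f2_an.RankOneObstruction
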